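import Pool.Agent.H26.LQ.Defs
import Pool.Agent.H26.MQ.Circle

/-! Module C0 of the board `lq_modules`: the circle inequality. -/

set_option autoImplicit false

open MeasureTheory Set Filter Topology Metric

namespace Pool.Agent.H94.LQ

open Pool.Agent.H26.LQ Pool.Agent.H26.ZQ Pool.Agent.H26.MQ Pool.Agent.H26.ML

/-- The mean over a circle, folded to the right half. -/
lemma fold0 {f : ℂ → ℂ} {r : ℝ} (hfb : AnalyticOnNhd ℂ f (closedBall 0 r)) (h0 : f 0 ≠ 0)
    (hr : 0 < r) :
    IntervalIntegrable (fun θ => Real.log ‖f (circleMap 0 r θ)‖) volume (-(Real.pi / 2))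
      (Real.pi / 2) ∧
    IntervalIntegrable (fun θ => Real.log ‖f (circleMap 0 r (Real.pi - θ))‖) volume
      (-(Real.pi / 2)) (Real.pi / 2) ∧
    2 * Real.pi * Real.log ‖f 0‖ ≤
      (∫ θ in (-(Real.pi / 2))..(Real.pi / 2), Real.log ‖f (circleMap 0 r θ)‖) +
      ∫ θ in (-(Real.pi / 2))..(Real.pi / 2), Real.log ‖f (circleMap 0 r (Real.pi - θ))‖ := by
  have hπ := Real.pi_pos
  have hJ := disc_jensen hr hfb h0 ∅ (by simp)
  rw [Finset.sum_empty, zero_add] at hJ
  set G : ℝ → ℝ := fun θ => Real.log ‖f (circleMap 0 r θ)‖ with hG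
  have hper : Function.Periodic G (2 * Real.pi) := by
    intro θ
    simp only [hG]
    rw [periodic_circleMap 0 r θ]
  have hci : CircleIntegrable (fun z => Real.log ‖f z‖) 0 r := by
    apply MeromorphicOn.circleIntegrable_log_norm
    intro z hz
    have hz' : z ∈ closedBall (0 : ℂ) r := by
      apply sphere_subset_closedBall
      rwa [abs_of_pos hr] at hz
    exact (hfb z hz').meromorphicAt
  have hint : IntervalIntegrable G volume 0 (2 * Real.pi) := hci
  have hint2 : ∀ a b : ℝ, IntervalIntegrable G volume a b := by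
    intro a b
    exact hper.intervalIntegrable (by positivity) (t := 0) (by rw [zero_add]; exact hint) a b
  have hπ2 : ∀ a b : ℝ, IntervalIntegrable (fun θ => G (Real.pi - θ)) volume a b := by
    intro a b
    have := (hint2 (Real.pi - a) (Real.pi - b)).comp_sub_left Real.pi
    simpa using this
  refine ⟨hint2 _ _, hπ2 _ _, ?_⟩
  have e1 : ∫ θ in (0 : ℝ)..(2 * Real.pi), G θ =
      ∫ θ in (-(Real.pi / 2))..(-(Real.pi / 2) + 2 * Real.pi), G θ := by
    have := hper.intervalIntegral_add_eq 0 (-(Real.pi / 2))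
    rwa [zero_add] at this
  have e2 : ∫ θ in (-(Real.pi / 2))..(-(Real.pi / 2) + 2 * Real.pi), G θ =
      (∫ θ in (-(Real.pi / 2))..(Real.pi / 2), G θ) +
        ∫ θ in (Real.pi / 2)..(-(Real.pi / 2) + 2 * Real.pi), G θ :=
    (intervalIntegral.integral_add_adjacent_intervals (hint2 _ _) (hint2 _ _)).symm
  have e3 : ∫ θ in (-(Real.pi / 2))..(Real.pi / 2), G (Real.pi - θ) =
      ∫ θ in (Real.pi / 2)..(-(Real.pi / 2) + 2 * Real.pi), G θ := by
    rw [intervalIntegral.integral_comp_sub_left (fun θ => G θ) Real.pi]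
    congr 1 <;> ring
  have e4 : Real.circleAverage (fun z => Real.log ‖f z‖) 0 r =
      (2 * Real.pi)⁻¹ * ∫ θ in (0 : ℝ)..(2 * Real.pi), G θ := by
    rw [Real.circleAverage_def, smul_eq_mul]
  rw [e4, ← div_eq_inv_mul, le_div_iff₀ (by positivity), e1, e2, ← e3] at hJ
  linarith

theorem pf_c0 : T_C0 := by
  intro A σ Λ r g hA hΛ hL h0 hr hr4
  have hπ := Real.pi_pos
  have hsub : closedBall (0 : ℂ) r ⊆ ball 0 (1 / 2) := closedBall_subset_ball (by linarith)
  have hfb : AnalyticOnNhd ℂ g (closedBall 0 r) := hL.an.mono hsub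
  obtain ⟨hi1, hi2, hJ⟩ := fold0 hfb h0 hr
  refine ⟨hi1, ?_⟩
  have hcirc : ∀ θ : ℝ, circleMap 0 r θ =
      ((r * Real.cos θ : ℝ) : ℂ) + ((r * Real.sin θ : ℝ) : ℂ) * Complex.I := by
    intro θ
    rw [circleMap, zero_add, Complex.exp_mul_I]
    push_cast
    ring
  have hcirc2 : ∀ θ : ℝ, circleMap 0 r (Real.pi - θ) =
      -((r * Real.cos θ : ℝ) : ℂ) + ((r * Real.sin θ : ℝ) : ℂ) * Complex.I := by
    intro θ
    rw [hcirc, Real.cos_pi_sub, Real.sin_pi_sub]
    push_cast
    ring
  have hcount := zeros_countable (convex_closedBall (0 : ℂ) r) isClosed_closedBall hfb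
    (x := 0) (by simp [hr.le]) h0
  have hP := hcount.preimage_circleMap 0 hr.ne'
  have hmem : ∀ θ : ℝ, circleMap 0 r θ ∈ closedBall (0 : ℂ) r :=
    fun θ => circleMap_mem_closedBall 0 hr.le θ
  have hae1 : ∀ᵐ θ : ℝ, g (circleMap 0 r θ) ≠ 0 := by
    filter_upwards [measure_eq_zero_iff_ae_notMem.mp (hP.measure_zero volume)] with θ hθ h0
    exact hθ ⟨hmem θ, h0⟩
  have hae2 : ∀ᵐ θ : ℝ, g (circleMap 0 r (Real.pi - θ)) ≠ 0 := by
    have hinj : Function.Injective fun θ : ℝ => Real.pi - θ := sub_right_injective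
    filter_upwards [measure_eq_zero_iff_ae_notMem.mp ((hP.preimage hinj).measure_zero volume)]
      with θ hθ h0
    exact hθ ⟨hmem _, h0⟩
  have hint3 : IntervalIntegrable (fun θ => Real.log A + r * Λ * Real.cos θ +
      2 * Real.log ‖g (circleMap 0 r θ)‖) volume (-(Real.pi / 2)) (Real.pi / 2) := by
    refine IntervalIntegrable.add ?_ (hi1.const_mul 2)
    exact (by fun_prop : Continuous fun θ : ℝ => Real.log A + r * Λ * Real.cos θ).intervalIntegrable
      _ _
  have hsum : (∫ θ in (-(Real.pi / 2))..(Real.pi / 2), Real.log ‖g (circleMap 0 r θ)‖) +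
      (∫ θ in (-(Real.pi / 2))..(Real.pi / 2), Real.log ‖g (circleMap 0 r (Real.pi - θ))‖) ≤
      ∫ θ in (-(Real.pi / 2))..(Real.pi / 2), (Real.log A + r * Λ * Real.cos θ +
        2 * Real.log ‖g (circleMap 0 r θ)‖) := by
    rw [← intervalIntegral.integral_add hi1 hi2]
    refine intervalIntegral.integral_mono_ae_restrict (by linarith) (hi1.add hi2) hint3 ?_
    have hres : volume.restrict (Icc (-(Real.pi / 2)) (Real.pi / 2)) =
        volume.restrict (Ioo (-(Real.pi / 2)) (Real.pi / 2)) :=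
      (Measure.restrict_congr_set Ioo_ae_eq_Icc).symm
    rw [hres]
    filter_upwards [ae_restrict_of_ae hae1, ae_restrict_of_ae hae2,
      ae_restrict_mem measurableSet_Ioo] with θ h1 h2 h3
    have hcos : 0 < Real.cos θ := Real.cos_pos_of_mem_Ioo h3
    have hcos1 : Real.cos θ ≤ 1 := Real.cos_le_one θ
    have hx0 : 0 < r * Real.cos θ := by positivity
    have hx4 : r * Real.cos θ ≤ 1 / 4 := by nlinarith
    have hy4 : |r * Real.sin θ| ≤ 1 / 4 := by
      rw [abs_mul, abs_of_pos hr]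
      have := Real.abs_sin_le_one θ
      nlinarith [abs_nonneg (Real.sin θ)]
    rw [hcirc] at h1
    rw [hcirc2] at h2
    show Real.log ‖g (circleMap 0 r θ)‖ + Real.log ‖g (circleMap 0 r (Real.pi - θ))‖ ≤ _
    rw [hcirc2 θ, hcirc θ]
    have hR := hL.refl _ _ hx0 hx4 hy4
    have hpos1 : 0 < ‖g (((r * Real.cos θ : ℝ) : ℂ) + ((r * Real.sin θ : ℝ) : ℂ) * Complex.I)‖ :=
      norm_pos_iff.mpr h1
    have hpos2 : 0 < ‖g (-((r * Real.cos θ : ℝ) : ℂ) + ((r * Real.sin θ : ℝ) : ℂ) * Complex.I)‖ :=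
      norm_pos_iff.mpr h2
    have hlog := Real.log_le_log hpos2 hR
    rw [Real.log_mul (by positivity) hpos1.ne', Real.log_mul (by positivity) (by positivity),
      Real.log_exp] at hlog
    linarith
  have hcosint : ∫ θ in (-(Real.pi / 2))..(Real.pi / 2), Real.cos θ = 2 := by
    rw [integral_cos, Real.sin_neg, Real.sin_pi_div_two]; norm_num
  have hval : ∫ θ in (-(Real.pi / 2))..(Real.pi / 2), (Real.log A + r * Λ * Real.cos θ +
        2 * Real.log ‖g (circleMap 0 r θ)‖) = Real.pi * Real.log A + r * Λ * 2 +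
      2 * ∫ θ in (-(Real.pi / 2))..(Real.pi / 2), Real.log ‖g (circleMap 0 r θ)‖ := by
    rw [intervalIntegral.integral_add
      ((by fun_prop : Continuous fun θ : ℝ => Real.log A + r * Λ * Real.cos θ).intervalIntegrable
        _ _) (hi1.const_mul 2), intervalIntegral.integral_add (by simp)
      ((by fun_prop : Continuous fun θ : ℝ => r * Λ * Real.cos θ).intervalIntegrable _ _),
      intervalIntegral.integral_const_mul, intervalIntegral.integral_const_mul, hcosint,
      intervalIntegral.integral_const]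
    simp
  rw [hval] at hsum
  have hfin := hJ.trans hsum
  have e2 : Real.log A / 2 + r * Λ / Real.pi + Real.pi⁻¹ *
      ∫ θ in (-(Real.pi / 2))..(Real.pi / 2), Real.log ‖g (circleMap 0 r θ)‖ =
      (2 * Real.pi)⁻¹ * (Real.pi * Real.log A + r * Λ * 2 +
      2 * ∫ θ in (-(Real.pi / 2))..(Real.pi / 2), Real.log ‖g (circleMap 0 r θ)‖) := by
    field_simp
  rw [e2, ← div_eq_inv_mul, le_div_iff₀ (by positivity)]
  linarith

end Pool.Agent.H94.LQ
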