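import Pool.Agent.H26.LQ.Defs
import Pool.Agent.H20.LIM.Targets

/-! Module LA of the board `lq_modules`: area integrals of the square of the negative part of the
logarithm. -/

set_option autoImplicit false

open MeasureTheory Set Filter Topology Metric

namespace Pool.Agent.H94.LQ

open Pool.Agent.H26.LQ Pool.Agent.H26.ZQ Pool.Agent.H26.MQ Pool.Agent.H26.ML

/-- The half disc in polar coordinates. -/
def SS : Set (ℝ × ℝ) := Ioo (0 : ℝ) (1 / 4) ×ˢ Ioo (-(Real.pi / 2)) (Real.pi / 2)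

lemma SS_meas : MeasurableSet SS := measurableSet_Ioo.prod measurableSet_Ioo

lemma SS_sub : SS ⊆ Complex.polarCoord.target := by
  have hπ := Real.pi_pos
  rintro p ⟨h1, h2⟩
  rw [Complex.polarCoord_target]
  refine ⟨h1.1, ?_, ?_⟩
  · have := h2.1; linarith
  · have := h2.2; linarith

lemma symm_circle (p : ℝ × ℝ) : Complex.polarCoord.symm p = circleMap 0 p.1 p.2 := by
  rw [Complex.polarCoord_symm_apply, circleMap, zero_add, Complex.exp_mul_I]
  push_cast
  ring

lemma circle_cont : Continuous fun p : ℝ × ℝ => circleMap 0 p.1 p.2 := by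
  unfold circleMap
  fun_prop

lemma logsq {r : ℝ} (h0 : 0 < r) (h1 : r ≤ 1) : r * Real.log r ^ 2 ≤ 4 := by
  set s := Real.sqrt r with hs
  have hs0 : 0 < s := Real.sqrt_pos.mpr h0
  have hsr : s ^ 2 = r := Real.sq_sqrt h0.le
  have h2 := Real.one_sub_inv_le_log_of_pos hs0
  have h3 : Real.log r = 2 * Real.log s := by
    rw [← hsr, Real.log_pow]; norm_num
  have h4 : Real.log s ≤ 0 := Real.log_nonpos hs0.le (by rw [hs]; exact Real.sqrt_le_one.mpr h1)
  have h5 : s * (-Real.log s) ≤ 1 := by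
    have h6 : s * (-Real.log s) ≤ s * (s⁻¹ - 1) := by
      apply mul_le_mul_of_nonneg_left _ hs0.le
      linarith
    have h7 : s * (s⁻¹ - 1) = 1 - s := by field_simp
    linarith
  have h6 : 0 ≤ s * (-Real.log s) := mul_nonneg hs0.le (by linarith)
  rw [h3, ← hsr]
  have h7 : s ^ 2 * (2 * Real.log s) ^ 2 = 4 * (s * (-Real.log s)) ^ 2 := by ring
  rw [h7]
  nlinarith

/-- The square of the logarithm is integrable over the unit disc. -/
lemma disc_fin : ∫⁻ w : ℂ, (closedBall (0 : ℂ) 1).indicator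
    (fun w => ENNReal.ofReal (Real.log ‖w‖ ^ 2)) w ≤ ENNReal.ofReal (8 * Real.pi) := by
  have hπ := Real.pi_pos
  rw [← Complex.lintegral_comp_polarCoord_symm, polarCoord_target]
  have h1 : ∀ p ∈ (Ioi (0 : ℝ) ×ˢ Ioo (-Real.pi) Real.pi : Set (ℝ × ℝ)),
      ENNReal.ofReal p.1 • (closedBall (0 : ℂ) 1).indicator
        (fun w => ENNReal.ofReal (Real.log ‖w‖ ^ 2)) (Complex.polarCoord.symm p) ≤
      (Ioc (0 : ℝ) 1 ×ˢ Ioo (-Real.pi) Real.pi : Set (ℝ × ℝ)).indicator
        (fun _ => ENNReal.ofReal 4) p := by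
    rintro p ⟨hp1, hp2⟩
    have hp0 : 0 < p.1 := hp1
    rw [symm_circle]
    have hn : ‖circleMap 0 p.1 p.2‖ = p.1 := by simp [abs_of_pos hp0]
    by_cases hm : p.1 ≤ 1
    · rw [indicator_of_mem (by rw [mem_closedBall, dist_zero_right, hn]; exact hm),
        indicator_of_mem (show p ∈ (Ioc (0 : ℝ) 1 ×ˢ Ioo (-Real.pi) Real.pi : Set (ℝ × ℝ)) from
          ⟨⟨hp0, hm⟩, hp2⟩), smul_eq_mul, ← ENNReal.ofReal_mul hp0.le, hn]
      exact ENNReal.ofReal_le_ofReal (logsq hp0 hm)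
    · rw [indicator_of_notMem (by rw [mem_closedBall, dist_zero_right, hn]; exact hm)]
      simp
  refine (setLIntegral_mono' (measurableSet_Ioi.prod measurableSet_Ioo) h1).trans ?_
  refine (setLIntegral_le_lintegral _ _).trans ?_
  rw [lintegral_indicator (measurableSet_Ioc.prod measurableSet_Ioo), lintegral_const,
    Measure.restrict_apply_univ, Measure.volume_eq_prod, Measure.prod_prod, Real.volume_Ioc,
    Real.volume_Ioo, ← ENNReal.ofReal_mul (by norm_num), ← ENNReal.ofReal_mul (by norm_num)]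
  apply ENNReal.ofReal_le_ofReal
  linarith

lemma area (δ : ℝ) (ζ : ℂ) (h0 : 0 ≤ δ) (h1 : δ ≤ 1 / 16) (hζ : ‖ζ‖ ≤ 3 / 8) :
    ∫⁻ p in SS, ENNReal.ofReal (p.1 * Real.log ‖circleMap 0 p.1 p.2 + 2 * δ - ζ‖ ^ 2) ≤
      ENNReal.ofReal (8 * Real.pi) := by
  set F : ℂ → ENNReal := (closedBall (0 : ℂ) (1 / 4)).indicator
    (fun z => ENNReal.ofReal (Real.log ‖z + 2 * δ - ζ‖ ^ 2)) with hF
  set G : ℂ → ENNReal := (closedBall (0 : ℂ) 1).indicator
    (fun w => ENNReal.ofReal (Real.log ‖w‖ ^ 2)) with hG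
  have hδn : ‖(2 * δ : ℂ)‖ ≤ 1 / 8 := by
    rw [norm_mul, Complex.norm_real, Real.norm_of_nonneg h0, Complex.norm_ofNat]
    linarith
  have hFG : ∀ z, F z ≤ G (z + (2 * δ - ζ)) := by
    intro z
    by_cases hz : z ∈ closedBall (0 : ℂ) (1 / 4)
    · have hz' : ‖z‖ ≤ 1 / 4 := by simpa using hz
      have h2 : z + (2 * δ - ζ) ∈ closedBall (0 : ℂ) 1 := by
        rw [mem_closedBall, dist_zero_right]
        calc ‖z + (2 * δ - ζ)‖ ≤ ‖z‖ + ‖(2 * δ - ζ : ℂ)‖ := norm_add_le _ _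
          _ ≤ ‖z‖ + (‖(2 * δ : ℂ)‖ + ‖ζ‖) := by gcongr; exact norm_sub_le _ _
          _ ≤ 1 := by linarith
      rw [hF, hG, indicator_of_mem hz, indicator_of_mem h2, add_sub_assoc]
    · rw [hF, indicator_of_notMem hz]
      exact zero_le
  calc ∫⁻ p in SS, ENNReal.ofReal (p.1 * Real.log ‖circleMap 0 p.1 p.2 + 2 * δ - ζ‖ ^ 2)
      = ∫⁻ p in SS, ENNReal.ofReal p.1 • F (Complex.polarCoord.symm p) := by
        refine setLIntegral_congr_fun SS_meas ?_
        rintro p ⟨hp1, hp2⟩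
        have hn : ‖circleMap 0 p.1 p.2‖ = p.1 := by simp [abs_of_pos hp1.1]
        simp only []
        rw [symm_circle, hF, indicator_of_mem (by
          rw [mem_closedBall, dist_zero_right, hn]; exact hp1.2.le), smul_eq_mul,
          ← ENNReal.ofReal_mul hp1.1.le]
    _ ≤ ∫⁻ p in Complex.polarCoord.target, ENNReal.ofReal p.1 • F (Complex.polarCoord.symm p) :=
        lintegral_mono_set SS_sub
    _ = ∫⁻ z, F z := Complex.lintegral_comp_polarCoord_symm F
    _ ≤ ∫⁻ z, G (z + (2 * δ - ζ)) := lintegral_mono hFG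
    _ = ∫⁻ z, G z := lintegral_add_right_eq_self G _
    _ ≤ _ := disc_fin

lemma meas_term (δ : ℝ) (ζ : ℂ) : Measurable fun p : ℝ × ℝ =>
    ENNReal.ofReal (p.1 * Real.log ‖circleMap 0 p.1 p.2 + 2 * δ - ζ‖ ^ 2) := by
  have h1 : Continuous fun p : ℝ × ℝ => ‖circleMap 0 p.1 p.2 + 2 * δ - ζ‖ :=
    ((circle_cont.add continuous_const).sub continuous_const).norm
  exact ((measurable_fst).mul ((Real.measurable_log.comp h1.measurable).pow_const 2)).ennreal_ofReal

theorem pf_la (hZF : Pool.Agent.H20.LIM.T_ZF) : T_LA := by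
  intro g hg h0
  have hsub : closedBall (0 : ℂ) (7 / 16) ⊆ ball 0 (1 / 2) := closedBall_subset_ball (by norm_num)
  have hg1 : AnalyticOnNhd ℂ g (closedBall 0 (7 / 16)) := hg.mono hsub
  obtain ⟨M, hM⟩ := (isCompact_closedBall (0 : ℂ) (7 / 16)).exists_bound_of_continuousOn
    hg1.continuousOn
  set B := |Real.log (max M 1)| + |Real.log ‖g 0‖| with hBdef
  have hub : ∀ z ∈ closedBall (0 : ℂ) (7 / 16), ‖g z‖ ≤ Real.exp B := by
    intro z hz
    have h1 : 0 < max M 1 := lt_of_lt_of_le one_pos (le_max_right _ _)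
    calc ‖g z‖ ≤ max M 1 := (hM z hz).trans (le_max_left _ _)
      _ = Real.exp (Real.log (max M 1)) := (Real.exp_log h1).symm
      _ ≤ Real.exp B := by
        apply Real.exp_le_exp.mpr
        have := le_abs_self (Real.log (max M 1))
        have := abs_nonneg (Real.log ‖g 0‖)
        linarith
  have hlb : Real.exp (-B) ≤ ‖g 0‖ := by
    have h1 : 0 < ‖g 0‖ := norm_pos_iff.mpr h0
    rw [← Real.exp_log h1]
    apply Real.exp_le_exp.mpr
    have := neg_abs_le (Real.log ‖g 0‖)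
    have := abs_nonneg (Real.log (max M 1))
    linarith
  obtain ⟨n, ζ, k, -, hζ, hk, hk0, hprod⟩ := hZF 0 (3 / 8) (7 / 16) B g (by norm_num) (by norm_num)
    (by positivity) hg1 hub hlb
  have hsub2 : closedBall (0 : ℂ) (3 / 8) ⊆ closedBall 0 (7 / 16) :=
    closedBall_subset_closedBall (by norm_num)
  -- lower bound for `k`
  obtain ⟨L, hL⟩ : ∃ L : ℝ, ∀ z ∈ closedBall (0 : ℂ) (3 / 8), |Real.log ‖k z‖| ≤ L := by
    have hcont : ContinuousOn (fun z => Real.log ‖k z‖) (closedBall (0 : ℂ) (3 / 8)) := by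
      refine ContinuousOn.log (hk.mono hsub2).continuousOn.norm ?_
      intro z hz
      exact norm_ne_zero_iff.mpr (hk0 z hz)
    obtain ⟨L, hL⟩ := (isCompact_closedBall (0 : ℂ) (3 / 8)).exists_bound_of_continuousOn hcont
    exact ⟨L, fun z hz => by simpa using hL z hz⟩
  have hpt : ∀ z ∈ closedBall (0 : ℂ) (3 / 8), (max (-Real.log ‖g z‖) 0) ^ 2 ≤
      2 * L ^ 2 + ∑ j, 2 * n * Real.log ‖z - ζ j‖ ^ 2 := by
    intro z hz
    have hnn : 0 ≤ ∑ j, 2 * (n : ℝ) * Real.log ‖z - ζ j‖ ^ 2 :=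
      Finset.sum_nonneg fun j _ => by positivity
    by_cases hgz : g z = 0
    · rw [hgz, norm_zero, Real.log_zero]
      simp only [neg_zero, max_self]
      nlinarith [sq_nonneg L]
    · rw [hprod z (hsub2 hz)] at hgz ⊢
      have hne := mul_ne_zero_iff.mp hgz
      have hne2 : ∀ j ∈ Finset.univ, ‖z - ζ j‖ ≠ 0 := by
        intro j hj
        exact norm_ne_zero_iff.mpr (Finset.prod_ne_zero_iff.mp hne.1 j hj)
      have hlog : Real.log ‖(∏ j, (z - ζ j)) * k z‖ =
          ∑ j, Real.log ‖z - ζ j‖ + Real.log ‖k z‖ := by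
        rw [norm_mul, Real.log_mul (norm_ne_zero_iff.mpr hne.1) (norm_ne_zero_iff.mpr hne.2),
          norm_prod, Real.log_prod hne2]
      rw [hlog]
      have hS : (∑ j, Real.log ‖z - ζ j‖) ^ 2 ≤ n * ∑ j, Real.log ‖z - ζ j‖ ^ 2 := by
        have := sq_sum_le_card_mul_sum_sq (s := Finset.univ) (f := fun j => Real.log ‖z - ζ j‖)
        simpa using this
      have hLz := hL z hz
      have hL2 : Real.log ‖k z‖ ^ 2 ≤ L ^ 2 := by
        rw [← sq_abs (Real.log ‖k z‖)]
        exact pow_le_pow_left₀ (abs_nonneg _) hLz 2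
      have h3 : (max (-(∑ j, Real.log ‖z - ζ j‖ + Real.log ‖k z‖)) 0) ^ 2 ≤
          (∑ j, Real.log ‖z - ζ j‖ + Real.log ‖k z‖) ^ 2 := by
        rw [← sq_abs (∑ j, Real.log ‖z - ζ j‖ + Real.log ‖k z‖)]
        apply pow_le_pow_left₀ (le_max_right _ _)
        exact max_le (neg_le_abs _) (abs_nonneg _)
      have h4 : ∑ j, 2 * (n : ℝ) * Real.log ‖z - ζ j‖ ^ 2 =
          2 * (n * ∑ j, Real.log ‖z - ζ j‖ ^ 2) := by
        rw [Finset.mul_sum, Finset.mul_sum]
        exact Finset.sum_congr rfl fun j _ => by ring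
      rw [h4]
      nlinarith [sq_nonneg (∑ j, Real.log ‖z - ζ j‖ - Real.log ‖k z‖)]
  -- the bound
  set V : ENNReal := ∫⁻ _ in SS, ENNReal.ofReal (2 * L ^ 2) with hV
  have hVt : V < ⊤ := by
    rw [hV, lintegral_const, Measure.restrict_apply_univ]
    refine ENNReal.mul_lt_top ENNReal.ofReal_lt_top ?_
    rw [SS, Measure.volume_eq_prod, Measure.prod_prod, Real.volume_Ioo, Real.volume_Ioo]
    exact ENNReal.mul_lt_top ENNReal.ofReal_lt_top ENNReal.ofReal_lt_top
  set W : ENNReal := V + ∑ _j : Fin n, ENNReal.ofReal (2 * n) * ENNReal.ofReal (8 * Real.pi) with hW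
  have hWt : W < ⊤ := by
    refine ENNReal.add_lt_top.mpr ⟨hVt, ?_⟩
    exact ENNReal.sum_lt_top.mpr fun j _ => ENNReal.mul_lt_top ENNReal.ofReal_lt_top
      ENNReal.ofReal_lt_top
  refine ⟨W.toReal, fun δ hδ0 hδ1 => ?_⟩
  rw [ENNReal.ofReal_toReal hWt.ne]
  change ∫⁻ p in SS, _ ≤ W
  calc ∫⁻ p in SS, ENNReal.ofReal (p.1 *
        (max (-Real.log ‖g (circleMap 0 p.1 p.2 + 2 * δ)‖) 0) ^ 2)
      ≤ ∫⁻ p in SS, (ENNReal.ofReal (2 * L ^ 2) + ∑ j : Fin n, ENNReal.ofReal (2 * n) *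
          ENNReal.ofReal (p.1 * Real.log ‖circleMap 0 p.1 p.2 + 2 * δ - ζ j‖ ^ 2)) := by
        refine setLIntegral_mono' SS_meas ?_
        rintro p ⟨hp1, hp2⟩
        have hn : ‖circleMap 0 p.1 p.2‖ = p.1 := by simp [abs_of_pos hp1.1]
        have hδn : ‖(2 * δ : ℂ)‖ ≤ 1 / 8 := by
          rw [norm_mul, Complex.norm_real, Real.norm_of_nonneg hδ0, Complex.norm_ofNat]
          linarith
        have hz : circleMap 0 p.1 p.2 + 2 * δ ∈ closedBall (0 : ℂ) (3 / 8) := by
          rw [mem_closedBall, dist_zero_right]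
          have h1 := norm_add_le (circleMap 0 p.1 p.2) (2 * δ : ℂ)
          have h2 := hp1.2
          rw [hn] at h1
          linarith
        have h1 := hpt _ hz
        have hp0 : 0 ≤ p.1 := hp1.1.le
        have hp14 : p.1 ≤ 1 := by have := hp1.2; linarith
        have h2 : p.1 * (max (-Real.log ‖g (circleMap 0 p.1 p.2 + 2 * δ)‖) 0) ^ 2 ≤
            2 * L ^ 2 + ∑ j : Fin n, 2 * n *
              (p.1 * Real.log ‖circleMap 0 p.1 p.2 + 2 * δ - ζ j‖ ^ 2) := by
          have h3 := mul_le_mul_of_nonneg_left h1 hp0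
          rw [mul_add, Finset.mul_sum] at h3
          refine h3.trans (add_le_add ?_ (Finset.sum_le_sum fun j _ => ?_))
          · nlinarith [sq_nonneg L]
          · exact le_of_eq (by ring)
        refine (ENNReal.ofReal_le_ofReal h2).trans ?_
        rw [ENNReal.ofReal_add (by positivity) (Finset.sum_nonneg fun j _ => by positivity),
          ENNReal.ofReal_sum_of_nonneg fun j _ => by positivity]
        refine add_le_add le_rfl (Finset.sum_le_sum fun j _ => ?_)
        rw [ENNReal.ofReal_mul (by positivity)]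
    _ = V + ∑ j : Fin n, ∫⁻ p in SS, ENNReal.ofReal (2 * n) *
          ENNReal.ofReal (p.1 * Real.log ‖circleMap 0 p.1 p.2 + 2 * δ - ζ j‖ ^ 2) := by
        rw [lintegral_add_left measurable_const, lintegral_finsetSum _ fun j _ =>
          (meas_term δ (ζ j)).const_mul _]
    _ ≤ W := by
        refine add_le_add le_rfl (Finset.sum_le_sum fun j _ => ?_)
        rw [lintegral_const_mul _ (meas_term δ (ζ j))]
        have hζj : ‖ζ j‖ ≤ 3 / 8 := by simpa using hζ j
        gcongr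
        exact area δ (ζ j) hδ0 hδ1 hζj

end Pool.Agent.H94.LQ
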