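import Pool.Agent.H26.LQ.Defs

/-! Module LG of the board `lq_modules`: lower bound for `f ∘ zm κ`. -/

set_option autoImplicit false

open MeasureTheory Set Filter Topology Metric

namespace Pool.Agent.H94.LQ

open Pool.Agent.H26.LQ Pool.Agent.H26.ZQ Pool.Agent.H26.MQ Pool.Agent.H26.ML

/-- `sinh (κ z)` is Lipschitz on discs. -/
lemma sinh_lip (κ R : ℝ) : ∃ L : ℝ, 1 ≤ L ∧ ∀ x ∈ closedBall (0 : ℂ) R, ∀ y ∈ closedBall (0 : ℂ) R,
    ‖Complex.sinh (κ * x) - Complex.sinh (κ * y)‖ ≤ L * ‖x - y‖ := by
  have hcont : ContinuousOn (fun z : ℂ => Complex.cosh (κ * z) * κ) (closedBall (0 : ℂ) R) := by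
    apply Continuous.continuousOn
    exact (Complex.continuous_cosh.comp (by fun_prop)).mul continuous_const
  obtain ⟨M, hM⟩ := (isCompact_closedBall (0 : ℂ) R).exists_bound_of_continuousOn hcont
  refine ⟨max M 1, le_max_right _ _, fun x hx y hy => ?_⟩
  have hder : ∀ z ∈ closedBall (0 : ℂ) R, HasDerivWithinAt (fun z : ℂ => Complex.sinh (κ * z))
      (Complex.cosh (κ * z) * κ) (closedBall (0 : ℂ) R) z := by
    intro z _
    have h1 : HasDerivAt (fun z : ℂ => (κ : ℂ) * z) (κ : ℂ) z := by
      simpa using (hasDerivAt_id z).const_mul (κ : ℂ)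
    exact h1.csinh.hasDerivWithinAt
  exact (convex_closedBall (0 : ℂ) R).norm_image_sub_le_of_norm_hasDerivWithin_le hder
    (fun z hz => (hM z hz).trans (le_max_left _ _)) hy hx

theorem pf_lg (hLB : T_LB) (hZM2 : T_ZM2) (hZM5 : T_ZM5) : T_LG := by
  intro E σ κ k f hE hσ hκ hf
  have hκ0 : 0 < κ := by linarith
  obtain ⟨C, hC, hC2⟩ := hLB E σ k f hE hσ hf
  obtain ⟨N, ζ, -, hlow⟩ := hC2 0
  set C₁ : ℝ := C * (1 + Real.log (1 + |(0 : ℝ)|)) with hC₁
  have hC₁0 : 0 ≤ C₁ := by
    rw [hC₁, abs_zero, add_zero, Real.log_one, add_zero, mul_one]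
    exact hC.le
  set ω : Fin N → ℂ := fun j => Complex.sinh (κ * ζ j) with hω
  set R : ℝ := σ + 1 + ∑ j, ‖ζ j‖ with hR
  have hsum0 : 0 ≤ ∑ j, ‖ζ j‖ := Finset.sum_nonneg fun j _ => norm_nonneg _
  obtain ⟨L, hL1, hL⟩ := sinh_lip κ R
  have hlogL : 0 ≤ Real.log L := Real.log_nonneg hL1
  set W : ℝ := Real.cosh (κ * σ) with hW
  have hW1 : 1 ≤ W := Real.one_le_cosh _
  set a : Fin N → ℝ := fun j => Real.log L + |Real.log ‖zm κ (ω j) - ζ j‖| with ha
  set b : Fin N → ℝ := fun j => Real.log (W + ‖ω j‖ + 1) with hb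
  have ha0 : ∀ j, 0 ≤ a j := fun j => by
    simp only [ha]
    positivity
  have hb0 : ∀ j, 0 ≤ b j := fun j => by
    simp only [hb]
    apply Real.log_nonneg
    have := norm_nonneg (ω j)
    linarith
  have hsa : 0 ≤ ∑ j, a j := Finset.sum_nonneg fun j _ => ha0 j
  have hsb : 0 ≤ ∑ j, b j := Finset.sum_nonneg fun j _ => hb0 j
  have hlogE : 0 ≤ Real.log E := Real.log_nonneg hE
  have hfar : ∀ z : ℂ, σ ≤ z.re → -Real.log E ≤ Real.log ‖f z‖ := by
    intro z hz
    have h1 := hf.far z hz
    have h2 : 0 < ‖f z‖ := by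
      by_contra h
      have h3 : ‖f z‖ = 0 := le_antisymm (not_lt.mp h) (norm_nonneg _)
      rw [h3, mul_zero] at h1
      linarith
    have h3 := Real.log_nonneg h1
    rw [Real.log_mul (by linarith) h2.ne'] at h3
    linarith
  refine ⟨C₁ + ∑ j, a j + ∑ j, b j + Real.log E, N, ω, by positivity, ?_, ?_⟩
  · intro w hw hwW hneg
    obtain ⟨hz0, hzim, hzw⟩ := (hZM2 κ w hκ0).1 hw
    set z := zm κ w with hz
    by_cases hzσ : z.re ≤ σ
    · have hfz : f z ≠ 0 := by
        intro h0
        rw [h0, norm_zero, Real.log_zero] at hneg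
        exact lt_irrefl _ hneg
      have him : |z.im| ≤ 1 := by
        refine hzim.trans ?_
        rw [div_le_one (by positivity)]
        have := Real.pi_lt_four
        linarith
      have h1 := hlow z hz0 hzσ (by rwa [sub_zero]) hfz
      have hzn : z ∈ closedBall (0 : ℂ) R := by
        rw [mem_closedBall, dist_zero_right]
        have h2 := Complex.norm_le_abs_re_add_abs_im z
        rw [abs_of_nonneg hz0] at h2
        rw [hR]
        linarith
      have hterm : ∀ j, Real.log ‖w - ω j‖ - a j ≤ Real.log ‖z - ζ j‖ := by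
        intro j
        by_cases hwj : w = ω j
        · have h2 : z = zm κ (ω j) := by rw [hz, hwj]
          rw [hwj, sub_self, norm_zero, Real.log_zero]
          simp only [ha]
          rw [h2]
          have := neg_abs_le (Real.log ‖zm κ (ω j) - ζ j‖)
          linarith
        · have hζn : ζ j ∈ closedBall (0 : ℂ) R := by
            rw [mem_closedBall, dist_zero_right]
            have h2 := Finset.single_le_sum (f := fun j => ‖ζ j‖) (fun j _ => norm_nonneg _)
              (Finset.mem_univ j)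
            rw [hR]
            linarith
          have h2 := hL z hzn (ζ j) hζn
          rw [hzw] at h2
          have h3 : 0 < ‖w - ω j‖ := norm_pos_iff.mpr (sub_ne_zero.mpr hwj)
          have h4 : 0 < ‖z - ζ j‖ := by
            rw [norm_pos_iff, sub_ne_zero]
            intro h5
            apply hwj
            rw [← hzw, h5]
          have h5 := Real.log_le_log h3 h2
          rw [Real.log_mul (by linarith) h4.ne'] at h5
          simp only [ha]
          have := abs_nonneg (Real.log ‖zm κ (ω j) - ζ j‖)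
          linarith
      have h2 := Finset.sum_le_sum fun j (_ : j ∈ (Finset.univ : Finset (Fin N))) => hterm j
      rw [Finset.sum_sub_distrib] at h2
      linarith
    · have h1 := hfar z (not_le.mp hzσ).le
      have hterm : ∀ j, Real.log ‖w - ω j‖ ≤ b j := by
        intro j
        by_cases hwj : w = ω j
        · rw [hwj, sub_self, norm_zero, Real.log_zero]
          exact hb0 j
        · have h3 : 0 < ‖w - ω j‖ := norm_pos_iff.mpr (sub_ne_zero.mpr hwj)
          apply Real.log_le_log h3
          have := norm_sub_le w (ω j)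
          linarith
      have h2 := Finset.sum_le_sum fun j (_ : j ∈ (Finset.univ : Finset (Fin N))) => hterm j
      linarith
  · intro w hw hwW
    have h1 := (hZM5 κ σ hκ0 hσ).1 w hw hwW
    have h2 := hfar _ h1
    linarith

end Pool.Agent.H94.LQ
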