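import Pool.Agent.H69.LQ.Lib

/-!
# MP_8f7db2_an, row TR: translation invariance
-/

open MeasureTheory Metric Set
open scoped ENNReal
open Pool.Agent.H85.LK (E adm lam Ann)
open Pool.Agent.H69.LQ

namespace Pool.Agent.H94.LQ

theorem adm_trans (N n : ℕ) (p : E N) (Ω : Set (E N)) (c : ℝ) (hc : c ∈ adm N n Ω) :
    c ∈ adm N n ((fun x => p + x) ⁻¹' Ω) := by
  obtain ⟨V, hV, hv⟩ := hc
  let L : (E N → ℝ) ≃ₗ[ℝ] (E N → ℝ) := LinearEquiv.funCongrLeft ℝ ℝ (Equiv.addLeft p)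
  refine ⟨V.map (L : (E N → ℝ) →ₗ[ℝ] (E N → ℝ)), ?_, ?_⟩
  · rw [← hV]
    exact LinearEquiv.finrank_map_eq L V
  · intro w hw
    rw [Submodule.mem_map] at hw
    obtain ⟨v, hvV, rfl⟩ := hw
    obtain ⟨h1, h2, h3, h4⟩ := hv v hvV
    have hL : (L : (E N → ℝ) →ₗ[ℝ] (E N → ℝ)) v = fun x => v (p + x) := rfl
    have hL2 : (L : (E N → ℝ) →ₗ[ℝ] (E N → ℝ)) v = v ∘ (Homeomorph.addLeft p) := rfl
    refine ⟨?_, ?_, ?_, ?_⟩
    · rw [hL]
      exact h1.comp (contDiff_const.add contDiff_id)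
    · rw [hL2]
      exact h2.comp_homeomorph _
    · rw [hL2, tsupport_comp_eq_preimage]
      intro x hx
      exact h3 hx
    · rw [hL]
      have e1 : ∫ x, ‖fderiv ℝ (fun x => v (p + x)) x‖ ^ 2 = ∫ x, ‖fderiv ℝ v x‖ ^ 2 := by
        rw [← integral_add_left_eq_self (fun x => ‖fderiv ℝ v x‖ ^ 2) p]
        congr 1
        funext x
        rw [fderiv_comp_add_left]
      have e2 : ∫ x, v (p + x) ^ 2 = ∫ x, v x ^ 2 :=
        integral_add_left_eq_self (fun x => v x ^ 2) p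
      rw [e1, e2]
      exact h4

theorem pf_TR : T_TR := by
  intro N n o Ω
  apply Set.Subset.antisymm
  · intro c hc
    have h := adm_trans N n (-o) _ c hc
    have e : (fun x => -o + x) ⁻¹' ((fun x => o + x) ⁻¹' Ω) = Ω := by
      ext x
      simp
    rwa [e] at h
  · intro c hc
    exact adm_trans N n o Ω c hc

end Pool.Agent.H94.LQ
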