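import Pool.Agent.H69.LQ.Lib

/-!
# MP_8f7db2_an, row TA: Taylor expansion at 1
-/

open MeasureTheory Metric Set
open scoped ENNReal
open Pool.Agent.H85.LK (E adm lam Ann)
open Pool.Agent.H69.LQ

namespace Pool.Agent.H94.LQ

/-- a bound for the derivative gives a bound for the function, with one more factor -/
theorem step (F g : ℝ → ℝ) (hF : ContDiff ℝ (⊤ : ℕ∞) F) (h1 : F 1 = 0)
    (hmono : ∀ R, |R - 1| ≤ 1 / 2 → ∀ x, |x - 1| ≤ |R - 1| → g x ≤ g R)
    (hb : ∀ R, |R - 1| ≤ 1 / 2 → |deriv F R| ≤ g R) :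
    ∀ R, |R - 1| ≤ 1 / 2 → |F R| ≤ g R * |R - 1| := by
  intro R hR
  have hmem : ∀ x ∈ uIcc 1 R, |x - 1| ≤ |R - 1| := by
    intro x hx
    have := abs_sub_left_of_mem_uIcc hx
    exact this
  have hdiff : Differentiable ℝ F := hF.differentiable (by simp)
  have h2 := (convex_uIcc (1 : ℝ) R).norm_image_sub_le_of_norm_deriv_le (f := F) (C := g R)
    (fun x _ => hdiff x) (fun x hx => by
      rw [Real.norm_eq_abs]
      have h3 := hmem x hx
      exact (hb x (h3.trans hR)).trans (hmono R hR x h3)) left_mem_uIcc right_mem_uIcc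
  rw [h1, sub_zero, Real.norm_eq_abs, Real.norm_eq_abs] at h2
  exact h2

theorem bound_cont (g : ℝ → ℝ) (hg : Continuous g) :
    ∃ C : ℝ, 0 < C ∧ ∀ R, |R - 1| ≤ 1 / 2 → |g R| ≤ C := by
  obtain ⟨C, hC⟩ := (isCompact_Icc (a := (1 / 2 : ℝ)) (b := 3 / 2)).exists_bound_of_continuousOn
    hg.continuousOn
  refine ⟨max C 1, lt_of_lt_of_le one_pos (le_max_right _ _), fun R hR => ?_⟩
  rw [abs_le] at hR
  have := hC R ⟨by linarith, by linarith⟩
  exact this.trans (le_max_left _ _)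

theorem contDiff_d {F : ℝ → ℝ} (hF : ContDiff ℝ (⊤ : ℕ∞) F) : ContDiff ℝ (⊤ : ℕ∞) (deriv F) :=
  (contDiff_infty_iff_deriv.mp hF).2

theorem pf_TA : T_TA := by
  intro F hF h1
  have hF1 := contDiff_d hF
  have hF2 := contDiff_d hF1
  have hF3 := contDiff_d hF2
  obtain ⟨C1, hC1, hb1⟩ := bound_cont _ hF1.continuous
  obtain ⟨C2, hC2, hb2⟩ := bound_cont _ hF2.continuous
  obtain ⟨C3, hC3, hb3⟩ := bound_cont _ hF3.continuous
  refine ⟨⟨C1, hC1, ?_⟩, fun hd => ⟨C2, hC2, ?_⟩, fun hd hdd => ⟨C3, hC3, ?_⟩⟩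
  · exact step F (fun _ => C1) hF h1 (fun _ _ _ _ => le_rfl) hb1
  · have h2 := step (deriv F) (fun _ => C2) hF1 hd (fun _ _ _ _ => le_rfl) hb2
    intro R hR
    have h3 := step F (fun R => C2 * |R - 1|) hF h1
      (fun R _ x hx => mul_le_mul_of_nonneg_left hx hC2.le) h2 R hR
    rw [← sq_abs (R - 1)]
    calc |F R| ≤ C2 * |R - 1| * |R - 1| := h3
      _ = C2 * |R - 1| ^ 2 := by ring
  · have h2 := step (deriv (deriv F)) (fun _ => C3) hF2 hdd (fun _ _ _ _ => le_rfl) hb3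
    have h3 := step (deriv F) (fun R => C3 * |R - 1|) hF1 hd
      (fun R _ x hx => mul_le_mul_of_nonneg_left hx hC3.le) h2
    intro R hR
    have h4 := step F (fun R => C3 * |R - 1| * |R - 1|) hF h1
      (fun R _ x hx => by
        have := abs_nonneg (x - 1)
        have := abs_nonneg (R - 1)
        have h5 : |x - 1| * |x - 1| ≤ |R - 1| * |R - 1| := mul_le_mul hx hx (abs_nonneg _) (abs_nonneg _)
        have h6 := mul_le_mul_of_nonneg_left h5 hC3.le
        change C3 * |x - 1| * |x - 1| ≤ C3 * |R - 1| * |R - 1|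
        linarith) h3 R hR
    rw [← sq_abs (R - 1)]
    calc |F R| ≤ C3 * |R - 1| * |R - 1| * |R - 1| := h4
      _ = C3 * |R - 1| * |R - 1| ^ 2 := by ring

end Pool.Agent.H94.LQ
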