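import Pool.Agent.H7.LP.Targets3

/-!
Row BSQ of the board lpq_modules: structures are Borel.
-/

set_option autoImplicit false

open Set Filter Topology

namespace Pool.Agent.H94.LQ

open Pool.Agent.H93.CP Pool.Agent.H7.LP Pool.Agent.H7.LQ

/-- substitution of a function with countably many values -/
theorem meas_subst {Ω ι : Type} [MeasurableSpace Ω] [MeasurableSpace ι] [Countable ι]
    [MeasurableSingletonClass ι] (a : Ω → ι) (ha : Measurable a) (P : ι → Ω → Prop)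
    (hP : ∀ c, MeasurableSet {w | P c w}) : MeasurableSet {w | P (a w) w} := by
  have h : {w | P (a w) w} = ⋃ c, (a ⁻¹' {c}) ∩ {w | P c w} := by
    ext w
    simp only [mem_ofPred_eq, mem_iUnion, mem_inter_iff, mem_preimage, mem_singleton_iff]
    constructor
    · intro hw
      exact ⟨a w, rfl, hw⟩
    · rintro ⟨c, hc, hw⟩
      rw [hc]
      exact hw
  rw [h]
  exact MeasurableSet.iUnion fun c => (ha (measurableSet_singleton c)).inter (hP c)

theorem meas_all {Ω ι : Type} [MeasurableSpace Ω] [Countable ι] (P : ι → Ω → Prop)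
    (hP : ∀ c, MeasurableSet {w | P c w}) : MeasurableSet {w | ∀ c, P c w} := by
  rw [ofPred_forall]
  exact MeasurableSet.iInter hP

theorem meas_iff {Ω : Type} [MeasurableSpace Ω] (P Q : Ω → Prop)
    (hP : MeasurableSet {w | P w}) (hQ : MeasurableSet {w | Q w}) :
    MeasurableSet {w | P w ↔ Q w} :=
  measurableSet_setOfPred.2 ((measurableSet_setOfPred.1 hP).iff (measurableSet_setOfPred.1 hQ))

theorem pf_BSQ (h1 : T_LBM) (h2 : T_BLE) (h3 : T_BQQ) : T_BSQ := by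
  intro G X _ _ _ _ _ _ _ _ B L M _ Y
  -- the coordinates
  have mx : Measurable fun p : X × (ℕ → ℕ × ℕ × G) × St2 => p.1 := measurable_fst
  have me : ∀ i, Measurable fun p : X × (ℕ → ℕ × ℕ × G) × St2 => p.2.1 i := fun i =>
    (measurable_pi_apply i).comp (measurable_fst.comp measurable_snd)
  have mw1 : ∀ i, Measurable fun p : X × (ℕ → ℕ × ℕ × G) × St2 => p.2.2.1 i := fun i =>
    (measurable_pi_apply i).comp (measurable_fst.comp (measurable_snd.comp measurable_snd))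
  have mw2 : ∀ i j, Measurable fun p : X × (ℕ → ℕ × ℕ × G) × St2 => p.2.2.2 i j := fun i j =>
    (measurable_pi_apply j).comp ((measurable_pi_apply i).comp
      (measurable_snd.comp (measurable_snd.comp measurable_snd)))
  have mk : ∀ i, Measurable fun p : X × (ℕ → ℕ × ℕ × G) × St2 => (p.2.1 i).1 := fun i =>
    measurable_fst.comp (me i)
  have mm : ∀ i, Measurable fun p : X × (ℕ → ℕ × ℕ × G) × St2 => (p.2.1 i).2.1 := fun i =>
    measurable_fst.comp (measurable_snd.comp (me i))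
  have mg : ∀ i, Measurable fun p : X × (ℕ → ℕ × ℕ × G) × St2 => (p.2.1 i).2.2 := fun i =>
    measurable_snd.comp (measurable_snd.comp (me i))
  have mwk : ∀ i, Measurable fun p : X × (ℕ → ℕ × ℕ × G) × St2 => (p.2.2.1 i).1 := fun i =>
    measurable_fst.comp (mw1 i)
  have mwm : ∀ i, Measurable fun p : X × (ℕ → ℕ × ℕ × G) × St2 => (p.2.2.1 i).2.1 := fun i =>
    measurable_fst.comp (measurable_snd.comp (mw1 i))
  have mwc : ∀ i (n : ℕ × ℕ), Measurable fun p : X × (ℕ → ℕ × ℕ × G) × St2 =>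
      (p.2.2.1 i).2.2 n := fun i n =>
    (measurable_pi_apply n).comp (measurable_snd.comp (measurable_snd.comp (mw1 i)))
  -- labels
  have hlb : ∀ (i n q : ℕ), MeasurableSet {p : X × (ℕ → ℕ × ℕ × G) × St2 |
      (lb L Y (p.2.1 i).1 p.1 (p.2.1 i).2.2 n ∩ B.U q).Nonempty} := by
    intro i n q
    refine meas_subst (fun p : X × (ℕ → ℕ × ℕ × G) × St2 => (p.2.1 i).1) (mk i)
      (fun k p => (lb L Y k p.1 (p.2.1 i).2.2 n ∩ B.U q).Nonempty) fun k => ?_
    exact (mx.prodMk (mg i)) (h1 G X L M Y k n (B.U q) (B.opn q))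
  -- the order
  have hle : ∀ (i j : ℕ), MeasurableSet {p : X × (ℕ → ℕ × ℕ × G) × St2 |
      Le B L Y p.1 (p.2.1 i) (p.2.1 j)} := by
    intro i j
    refine meas_subst (fun p : X × (ℕ → ℕ × ℕ × G) × St2 =>
      (((p.2.1 i).1, (p.2.1 i).2.1), ((p.2.1 j).1, (p.2.1 j).2.1)))
      (((mk i).prodMk (mm i)).prodMk ((mk j).prodMk (mm j)))
      (fun c p => Le B L Y p.1 (c.1.1, c.1.2, (p.2.1 i).2.2) (c.2.1, c.2.2, (p.2.1 j).2.2))
      fun c => ?_
    exact (mx.prodMk ((mg i).prodMk (mg j))) (h2 G X B L M Y c.1.1 c.1.2 c.2.1 c.2.2)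
  -- the cosets
  have hqq : ∀ (i j q : ℕ), MeasurableSet {p : X × (ℕ → ℕ × ℕ × G) × St2 |
      ∃ u ∈ KX B L Y (p.2.1 j).1 (p.2.1 j).2.1 p.1 (p.2.1 j).2.2,
        (p.2.1 i).2.2 * ((p.2.1 j).2.2)⁻¹ * u ∈ B.U q} := by
    intro i j q
    refine meas_subst (fun p : X × (ℕ → ℕ × ℕ × G) × St2 => ((p.2.1 j).1, (p.2.1 j).2.1))
      ((mk j).prodMk (mm j))
      (fun c p => ∃ u ∈ KX B L Y c.1 c.2 p.1 (p.2.1 j).2.2,
        (p.2.1 i).2.2 * ((p.2.1 j).2.2)⁻¹ * u ∈ B.U q) fun c => ?_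
    exact (mx.prodMk ((mg i).prodMk (mg j))) (h3 G X B L M Y c.1 c.2 (B.U q) (B.opn q))
  have e : {p : X × (ℕ → ℕ × ℕ × G) × St2 | IsSt B L Y p.1 p.2.1 p.2.2} =
      (({p | ∀ i, (p.2.2.1 i).1 = (p.2.1 i).1} ∩ {p | ∀ i, (p.2.2.1 i).2.1 = (p.2.1 i).2.1}) ∩
      {p | ∀ i : ℕ, ∀ n q : ℕ, (p.2.2.1 i).2.2 (n, q) = true ↔
        (lb L Y (p.2.1 i).1 p.1 (p.2.1 i).2.2 n ∩ B.U q).Nonempty}) ∩
      ({p | ∀ i j : ℕ, (p.2.2.2 i j).1 = true ↔ Le B L Y p.1 (p.2.1 i) (p.2.1 j)} ∩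
      {p | ∀ i j q : ℕ, (p.2.2.2 i j).2 q = true ↔ (Le B L Y p.1 (p.2.1 i) (p.2.1 j) ∧
        ∃ u ∈ KX B L Y (p.2.1 j).1 (p.2.1 j).2.1 p.1 (p.2.1 j).2.2,
        (p.2.1 i).2.2 * ((p.2.1 j).2.2)⁻¹ * u ∈ B.U q)}) := by
    ext p
    constructor
    · intro h
      exact ⟨⟨⟨h.k, h.m⟩, fun i n q => h.y i n q⟩, h.le, h.q⟩
    · rintro ⟨⟨⟨a, b⟩, c⟩, d, f⟩
      exact ⟨a, b, fun i n q => c i n q, d, f⟩
  rw [e]
  refine MeasurableSet.inter (MeasurableSet.inter (MeasurableSet.inter ?_ ?_) ?_)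
    (MeasurableSet.inter ?_ ?_)
  · exact meas_all _ fun i => measurableSet_eq_fun (mwk i) (mk i)
  · exact meas_all _ fun i => measurableSet_eq_fun (mwm i) (mm i)
  · refine meas_all _ fun i => meas_all _ fun n => meas_all _ fun q => meas_iff _ _ ?_ (hlb i n q)
    exact (mwc i (n, q)) (measurableSet_singleton true)
  · refine meas_all _ fun i => meas_all _ fun j => meas_iff _ _ ?_ (hle i j)
    exact (measurable_fst.comp (mw2 i j)) (measurableSet_singleton true)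
  · refine meas_all _ fun i => meas_all _ fun j => meas_all _ fun q => meas_iff _ _ ?_
      ((hle i j).inter (hqq i j q))
    exact ((measurable_pi_apply q).comp (measurable_snd.comp (mw2 i j)))
      (measurableSet_singleton true)

end Pool.Agent.H94.LQ
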