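import Pool.Agent.H26.LQ.Defs

/-! Module E0 of the board `lq_modules`: the other inequality in the formula of Jensen. -/

set_option autoImplicit false

open MeasureTheory Set Filter Topology Metric

namespace Pool.Agent.H94.LQ

open Pool.Agent.H26.LQ Pool.Agent.H26.ZQ Pool.Agent.H26.MQ Pool.Agent.H26.ML

theorem yac_cay {c : ℝ} (hc : 0 < c) {w : ℂ} (h : 1 + w ≠ 0) : yac c (cay c w) = w := by
  have h2 : (c : ℂ) ≠ 0 := by exact_mod_cast hc.ne'
  unfold cay yac
  have h3 : (c : ℂ) - c * ((1 - w) / (1 + w)) = 2 * c * w / (1 + w) := by field_simp; ring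
  have h4 : (c : ℂ) + c * ((1 - w) / (1 + w)) = 2 * c / (1 + w) := by field_simp; ring
  rw [h3, h4]
  field_simp

/-- Change of variables from the circle to the line. -/
theorem cov {c r : ℝ} (hc : 0 < c) (g : ℂ → ℂ)
    (hint : IntegrableOn (bdry g c r) (Ioc 0 (2 * Real.pi))) :
    Integrable (fun u : ℝ => poi c u * bdry g c r (ang c u)) ∧
      ∫ u : ℝ, poi c u * bdry g c r (ang c u) =
        2⁻¹ * ∫ θ in Ioc 0 (2 * Real.pi), bdry g c r θ := by
  have hπ := Real.pi_pos
  have hper : Function.Periodic (bdry g c r) (2 * Real.pi) := by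
    intro θ
    unfold bdry
    rw [periodic_circleMap 0 r θ]
  have h3 : IntervalIntegrable (bdry g c r) volume 0 (2 * Real.pi) := by
    rw [intervalIntegrable_iff_integrableOn_Ioc_of_le (by positivity)]
    exact hint
  have h4 : IntervalIntegrable (bdry g c r) volume (-Real.pi) Real.pi := by
    apply hper.intervalIntegrable (by positivity) (t := 0)
    rw [zero_add]; exact h3
  have h5 : ∫ θ in Ioc 0 (2 * Real.pi), bdry g c r θ =
      ∫ θ in Ioo (-Real.pi) Real.pi, bdry g c r θ := by
    have h6 := hper.intervalIntegral_add_eq 0 (-Real.pi)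
    rw [zero_add, intervalIntegral.integral_of_le (by positivity),
      show -Real.pi + 2 * Real.pi = Real.pi by ring,
      intervalIntegral.integral_of_le (by linarith)] at h6
    rw [h6, integral_Ioc_eq_integral_Ioo]
  have h4' : IntegrableOn (bdry g c r) (Ioo (-Real.pi) Real.pi) := by
    rw [intervalIntegrable_iff_integrableOn_Ioc_of_le (by linarith)] at h4
    exact h4.mono_set Ioo_subset_Ioc_self
  have hder : ∀ u ∈ (univ : Set ℝ), HasDerivWithinAt (ang c) (-(2 * (c / (c ^ 2 + u ^ 2)))) univ u :=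
    fun u _ => (ang_hasDerivAt hc u).hasDerivWithinAt
  have hkey : ∀ u : ℝ, |-(2 * (c / (c ^ 2 + u ^ 2)))| • bdry g c r (ang c u) =
      2 * (poi c u * bdry g c r (ang c u)) := by
    intro u
    rw [abs_neg, abs_of_pos (by positivity), smul_eq_mul]
    unfold poi
    ring
  constructor
  · rw [← ang_image hc, integrableOn_image_iff_integrableOn_abs_deriv_smul MeasurableSet.univ hder
      (ang_inj hc).injOn] at h4'
    simp only [hkey, integrableOn_univ] at h4'
    have := h4'.const_mul (1 / 2)
    refine this.congr ?_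
    filter_upwards with u
    ring
  · rw [h5, ← ang_image hc, integral_image_eq_integral_abs_deriv_smul MeasurableSet.univ hder
      (ang_inj hc).injOn]
    simp only [hkey, Measure.restrict_univ]
    rw [integral_const_mul]
    ring

/-- The mean over the circle of radius `r < 1`. -/
theorem circ_up (hJU : T_JU) {E c T : ℝ} {g : ℂ → ℂ} (hc : 0 < c) (hg : HB E g) (hgc : g c ≠ 0)
    (hT : ∀ Z : Finset ℂ, (∀ z ∈ Z, 0 < z.re) → ∑ z ∈ Z, (analyticOrderNatAt g z : ℝ) *
      Real.log (‖(c : ℂ) + z‖ / ‖(c : ℂ) - z‖) ≤ T) (n : ℕ) :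
    IntegrableOn (bdry g c (rad n)) (Ioc 0 (2 * Real.pi)) ∧
      ∫ θ in Ioc 0 (2 * Real.pi), bdry g c (rad n) θ ≤ 2 * Real.pi * (T + Real.log ‖g c‖) := by
  classical
  have hπ := Real.pi_pos
  have hcomp : ∀ ζ : ℂ, ‖ζ‖ < 1 → AnalyticAt ℂ (fun ζ => g (cay c ζ)) ζ := by
    intro ζ h
    exact (hg.an _ (cay_re_pos hc h)).comp (analyticAt_cay c (one_add_ne_of_lt h))
  constructor
  · have h1 : CircleIntegrable (fun ζ => Real.log ‖g (cay c ζ)‖) 0 (rad n) := by
      apply MeromorphicOn.circleIntegrable_log_norm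
      intro z hz
      have hzn : ‖z‖ < 1 := by
        rw [mem_sphere, dist_eq_norm, sub_zero, abs_of_pos (rad_pos n)] at hz
        rw [hz]; exact rad_lt n
      exact (hcomp z hzn).meromorphicAt
    have h2 : IntervalIntegrable (bdry g c (rad n)) volume 0 (2 * Real.pi) := h1
    rwa [intervalIntegrable_iff_integrableOn_Ioc_of_le (by positivity)] at h2
  · have hF : AnalyticOnNhd ℂ (fun ζ => g (cay c ζ)) (closedBall 0 (rad n)) := by
      intro ζ hζ
      rw [mem_closedBall, dist_eq_norm, sub_zero] at hζ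
      exact hcomp ζ (hζ.trans_lt (rad_lt n))
    have h0 : g (cay c 0) ≠ 0 := by rw [cay_zero]; exact hgc
    have h1 := hJU (fun ζ => g (cay c ζ)) (rad n) T (rad_pos n) (rad_lt n) hF h0 (by
      intro W hW
      have hW1 : ∀ w ∈ W, ‖w‖ < 1 := by
        intro w hw
        have := hW w hw
        rw [mem_closedBall, dist_eq_norm, sub_zero] at this
        exact this.trans_lt (rad_lt n)
      have h2 := hT (W.image (cay c)) (by
        intro z hz
        rw [Finset.mem_image] at hz
        obtain ⟨w, hw, rfl⟩ := hz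
        exact cay_re_pos hc (hW1 w hw))
      rw [Finset.sum_image] at h2
      · refine le_trans (le_of_eq ?_) h2
        refine Finset.sum_congr rfl fun w hw => ?_
        have h3 := yac_cay hc (one_add_ne_of_lt (hW1 w hw))
        have h4 := order_comp_cay hc g (cay_re_pos hc (hW1 w hw))
        rw [h3] at h4
        rw [h4]
        congr 1
        have h5 : ‖(c : ℂ) + cay c w‖ / ‖(c : ℂ) - cay c w‖ = 1 / ‖w‖ := by
          conv_rhs => rw [← h3]
          rw [norm_yac, one_div_div]
        rw [h5]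
      · intro w hw w' hw' h
        rw [← yac_cay hc (one_add_ne_of_lt (hW1 w hw)),
          ← yac_cay hc (one_add_ne_of_lt (hW1 w' hw')), h])
    rw [Real.circleAverage_def, smul_eq_mul, intervalIntegral.integral_of_le (by positivity)] at h1
    have h3 := mul_le_mul_of_nonneg_left h1 (by positivity : (0 : ℝ) ≤ 2 * Real.pi)
    rw [← mul_assoc, mul_inv_cancel₀ (by positivity), one_mul] at h3
    have h4 : g (cay c 0) = g c := by rw [cay_zero]
    simp only [h4] at h3
    exact h3

theorem zx_nonneg {c δ u : ℝ} (hc : 0 < c) (hδ : 0 ≤ δ) : 0 ≤ zx c δ u := by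
  unfold zx
  positivity

theorem zz_re (c δ u : ℝ) : (zz c δ u).re = zx c δ u := by
  simp [zz]

/-- The points `zz c δ u` tend to `i u`. -/
theorem zz_tendsto {c : ℝ} (hc : 0 < c) (u : ℝ) {d : ℕ → ℝ} (hd : Tendsto d atTop (𝓝 0)) :
    Tendsto (fun n => zz c (d n) u) atTop (𝓝 (u * Complex.I)) := by
  have hne : c ^ 2 + (0 : ℝ) ^ 2 * u ^ 2 ≠ 0 := by positivity
  have h0 : ContinuousAt (fun δ : ℝ => zz c δ u) 0 := by
    unfold zz zx zy
    have h1 : ContinuousAt (fun δ : ℝ => c * δ * (c ^ 2 + u ^ 2) / (c ^ 2 + δ ^ 2 * u ^ 2)) 0 :=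
      ContinuousAt.div (by fun_prop) (by fun_prop) hne
    have h2 : ContinuousAt (fun δ : ℝ => c ^ 2 * (1 - δ ^ 2) * u / (c ^ 2 + δ ^ 2 * u ^ 2)) 0 :=
      ContinuousAt.div (by fun_prop) (by fun_prop) hne
    exact (Complex.continuous_ofReal.continuousAt.comp h1).add
      ((Complex.continuous_ofReal.continuousAt.comp h2).mul continuousAt_const)
  have h3 : zz c 0 u = u * Complex.I := by
    have e1 : zx c 0 u = 0 := by simp [zx]
    have e2 : zy c 0 u = u := by
      unfold zy
      field_simp
      ring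
    rw [zz, e1, e2]
    simp
  have h4 := h0.tendsto.comp hd
  rw [h3] at h4
  exact h4

theorem pf_e0 (hJ0 : T_J0) (hFLO : T_FLO) (hJU : T_JU) (hZC : T_ZC) : T_E0 := by
  intro E c T B δ₀ g hE hc hg hgc hδ₀ hB hT
  have hπ := Real.pi_pos
  obtain ⟨hI, -⟩ := hJ0 E c g ∅ hE hc hg hgc (by simp)
  set ρ : ℝ → ENNReal := fun u => ENNReal.ofReal (poi c u) with hρ
  have hρm : Measurable ρ := (poi_continuous hc).measurable.ennreal_ofReal
  have hρt : ∀ᵐ u : ℝ, ρ u < ⊤ := Eventually.of_forall fun u => ENNReal.ofReal_lt_top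
  have hρr : ∀ u, (ρ u).toReal = poi c u := fun u => ENNReal.toReal_ofReal (poi_pos hc u).le
  have : IsFiniteMeasure ((volume : Measure ℝ).withDensity ρ) :=
    isFiniteMeasure_withDensity_ofReal (poi_integrable hc).2
  set d : ℕ → ℝ := fun n => (1 - rad n) / (1 + rad n) with hd
  have hdt : Tendsto d atTop (𝓝 0) := by
    have h1 : Tendsto (fun n => (1 - rad n) / (1 + rad n)) atTop (𝓝 ((1 - 1) / (1 + 1))) :=
      (rad_tendsto.const_sub 1).div (rad_tendsto.const_add 1) (by norm_num)
    rwa [sub_self, zero_div] at h1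
  have hdpos : ∀ n, 0 < d n := fun n =>
    div_pos (by have := rad_lt n; linarith) (by have := rad_pos n; linarith)
  have hbz : ∀ n u, bdry g c (rad n) (ang c u) = Real.log ‖g (zz c (d n) u)‖ := by
    intro n u
    unfold bdry
    rw [hZC c (rad n) u hc (rad_pos n) (rad_lt n).le]
  have hmain := hFLO ((volume : Measure ℝ).withDensity ρ)
    (fun n u => Real.log ‖g (zz c (d n) u)‖) (bz g) B (Real.pi * (T + Real.log ‖g c‖))
    (by
      intro n
      rw [integrable_withDensity_iff_integrable_smul' hρm hρt]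
      have h1 := (cov hc g (circ_up hJU hc hg hgc hT n).1).1
      refine h1.congr ?_
      filter_upwards with u
      rw [hρr, hbz, smul_eq_mul])
    (by
      rw [integrable_withDensity_iff_integrable_smul' hρm hρt]
      refine hI.congr ?_
      filter_upwards with u
      rw [hρr, smul_eq_mul])
    (by
      apply (withDensity_absolutelyContinuous (volume : Measure ℝ) ρ).ae_le
      filter_upwards [hg.ne] with u hu
      have h1 := zz_tendsto hc u hdt
      have h2 : Tendsto (fun n => zz c (d n) u) atTop (𝓝[{z | 0 ≤ z.re}] (u * Complex.I)) := by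
        rw [tendsto_nhdsWithin_iff]
        refine ⟨h1, Eventually.of_forall fun n => ?_⟩
        show 0 ≤ (zz c (d n) u).re
        rw [zz_re]
        exact zx_nonneg hc (hdpos n).le
      have h3 : (u : ℂ) * Complex.I ∈ {z : ℂ | 0 ≤ z.re} := by simp
      have h4 := ((hg.cont _ h3).tendsto.comp h2).norm
      exact (Real.continuousAt_log (norm_ne_zero_iff.mpr hu)).tendsto.comp h4)
    (by
      filter_upwards [hdt.eventually (gt_mem_nhds hδ₀)] with n hn
      rw [lintegral_withDensity_eq_lintegral_mul_non_measurable _ hρm hρt]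
      refine le_trans (le_of_eq ?_) (hB (d n) (hdpos n) hn.le)
      refine lintegral_congr fun u => ?_
      rw [Pi.mul_apply, ENNReal.ofReal_mul (poi_pos hc u).le])
    (by
      refine Eventually.of_forall fun n => ?_
      rw [integral_withDensity_eq_integral_toReal_smul hρm hρt]
      obtain ⟨h1, h2⟩ := circ_up hJU hc hg hgc hT n
      have h3 := (cov hc g h1).2
      have h4 : ∫ u : ℝ, (ρ u).toReal • Real.log ‖g (zz c (d n) u)‖ =
          ∫ u : ℝ, poi c u * bdry g c (rad n) (ang c u) := by
        refine integral_congr_ae ?_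
        filter_upwards with u
        rw [hρr, hbz, smul_eq_mul]
      rw [h4, h3]
      linarith)
  rw [integral_withDensity_eq_integral_toReal_smul hρm hρt] at hmain
  refine le_trans (le_of_eq ?_) hmain
  refine integral_congr_ae ?_
  filter_upwards with u
  rw [hρr, smul_eq_mul]

end Pool.Agent.H94.LQ
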